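import Pool.Agent.J4H46.TR.Grp
import Pool.Agent.J4H46.TA.Ext
import Pool.Agent.J4H46.TP.Prime

/-!
An automorphism over an extension which permutes the roots of each polynomial of a finite set in one cycle,
if the Galois groups are the full symmetric groups.
-/

set_option autoImplicit false
set_option linter.all false

open Polynomial NumberField
open scoped Classical

namespace Pool.Agent.J4H46.TR

open Pool.Agent.W401.Cheb Pool.Agent.X243.Gen Pool.Agent.X243.Sol Pool.Agent.J4H46.TA
  Pool.Agent.J4H46.TP

/-- Polynomials with full symmetric Galois groups over `k`, and an extension `L` of `k` contained in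
a normal extension over which none of them splits. -/
theorem full_fam {k : Type} [Field k] [CharZero k] {F : Finset k[X]} {N : ℕ} (h5 : 5 ≤ N)
    (hN : Odd N) (hF : ∀ f ∈ F, FF N f) (L : Type) [Field L]
    [Algebra k L] (M : IntermediateField k (AlgebraicClosure L)) (hMn : Normal k M)
    (hM : ∀ x : L, IsAlgebraic k x → algebraMap L (AlgebraicClosure L) x ∈ M)
    (hns : ∀ f ∈ F, ¬ (f.map (algebraMap k M)).Splits) :
    ∃ σ : AlgebraicClosure L ≃ₐ[L] AlgebraicClosure L,
      ∀ f ∈ F, OneCycle σ (f.map (algebraMap k L)) := by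
  haveI : CharZero L := charZero_of_injective_algebraMap (algebraMap k L).injective
  haveI : IsGalois L (AlgebraicClosure L) := ⟨⟩
  obtain ⟨P, hP⟩ : ∃ P : k[X], P = ∏ f ∈ F, f := ⟨_, rfl⟩
  have hP0 : P ≠ 0 := by
    rw [hP]
    exact Finset.prod_ne_zero_iff.2 fun f hf => (hF f hf).2.1.ne_zero
  haveI : CharZero P.SplittingField := charZero_of_injective_algebraMap
    (algebraMap k P.SplittingField).injective
  haveI : IsGalois k P.SplittingField := ⟨⟩
  have hsp := SplittingField.splits P
  have hP' : P.map (algebraMap k P.SplittingField) ≠ 0 :=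
    (Polynomial.map_ne_zero_iff (algebraMap k P.SplittingField).injective).2 hP0
  have spf : ∀ f ∈ F, (f.map (algebraMap k P.SplittingField)).Splits := by
    intro f hf
    refine hsp.of_dvd hP' (Polynomial.map_dvd _ ?_)
    rw [hP]
    exact Finset.dvd_prod_of_mem _ hf
  obtain ⟨i, -⟩ : ∃ i : P.SplittingField →ₐ[k] AlgebraicClosure L, i = i :=
    ⟨IsAlgClosed.lift, rfl⟩
  letI : Algebra P.SplittingField (AlgebraicClosure L) := i.toRingHom.toAlgebra
  haveI : IsScalarTower k P.SplittingField (AlgebraicClosure L) :=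
    IsScalarTower.of_algebraMap_eq fun x => (i.commutes x).symm
  have cardf : ∀ f ∈ F, Fintype.card (f.rootSet P.SplittingField) = N := by
    intro f hf
    rw [card_rootSet_eq_natDegree (hF f hf).2.1 (spf f hf), (hF f hf).1.2]
  obtain ⟨h, hh, hc⟩ := all_cyc (G := P.SplittingField ≃ₐ[k] P.SplittingField) (ι := F)
    (X := fun f => (f : k[X]).rootSet P.SplittingField) (N := N) (r := N)
    (fun f => cardf f f.2) h5 hN le_rfl (Nat.le_succ N)
    (γ := fun f => MulAction.toPermHom (P.SplittingField ≃ₐ[k] P.SplittingField)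
      ((f : k[X]).rootSet P.SplittingField))
    (fun f => (hF f f.2).2.2 _ (spf f f.2))
    (ME_normal (E := P.SplittingField) M) Finset.univ
    (fun f _ => moves (spf f f.2) M (hns f f.2))
  obtain ⟨σ, hσ⟩ := lift_aut (E := P.SplittingField) (L := L) M hM hh
  refine ⟨σ, fun f hf => ?_⟩
  have hcf := hc ⟨f, hf⟩ (Finset.mem_univ _)
  obtain ⟨x, hx⟩ := oneCyc_of hcf (le_of_eq (cardf f hf))
  have hp : ∀ (i : ℕ) (z : f.rootSet P.SplittingField),
      (σ ^ i) (algebraMap _ (AlgebraicClosure L) (z : P.SplittingField)) =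
      algebraMap _ (AlgebraicClosure L)
        ((((MulAction.toPermHom (P.SplittingField ≃ₐ[k] P.SplittingField)
          (f.rootSet P.SplittingField) h) ^ i) z : f.rootSet P.SplittingField) :
            P.SplittingField) := by
    intro i
    induction i with
    | zero => intro z; rfl
    | succ i ih =>
      intro z
      rw [pow_succ', AlgEquiv.mul_apply, ih, hσ, pow_succ', Equiv.Perm.mul_apply]
      rfl
  have hroots : (f.map (algebraMap k L)).rootSet (AlgebraicClosure L) =
      (algebraMap P.SplittingField (AlgebraicClosure L)) '' f.rootSet P.SplittingField := by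
    rw [(spf f hf).image_rootSet_algebraMap]
    ext z
    rw [mem_rootSet, mem_rootSet, aeval_map_algebraMap]
    exact ⟨fun h => ⟨(hF f hf).2.1.ne_zero, h.2⟩, fun h => ⟨((hF f hf).2.1.map).ne_zero, h.2⟩⟩
  refine ⟨algebraMap _ _ (x : P.SplittingField), ?_, fun z hz => ?_⟩
  · rw [hroots]; exact ⟨x, x.2, rfl⟩
  · rw [hroots] at hz
    obtain ⟨w, hw, rfl⟩ := hz
    obtain ⟨i, h⟩ := hx ⟨w, hw⟩
    refine ⟨i, ?_⟩
    rw [hp, ← h]

/-- The extensions `L` of the number field `k` which are considered, for polynomials of degree `n` over `k`: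
those contained in a normal extension over which none of the polynomials splits, the solvable ones, and
those of degree less than `n`. -/
def Allowed {k : Type} [Field k] (n : ℕ) (S : k[X] → Prop) (L : Type) [Field L] [Algebra k L] :
    Prop :=
  (∃ M : IntermediateField k (AlgebraicClosure L), Normal k M ∧
    (∀ x : L, algebraMap L (AlgebraicClosure L) x ∈ M) ∧
    ∀ f, S f → ¬ (f.map (algebraMap k M)).Splits) ∨
  (∀ x : L, Group.IsSolvable (minpoly k x).Gal) ∨
  Module.finrank k L < n

/-- Over all the allowed extensions. -/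
theorem allowed_fam {k : Type} [Field k] [NumberField k] {F : Finset k[X]} {N : ℕ} (h5 : 5 ≤ N)
    (hN : Odd N) (hF : ∀ f ∈ F, FF N f) (L : Type) [Field L] [NumberField L]
    [Algebra k L] {S : k[X] → Prop} (hS : ∀ f ∈ F, S f) (hL : Allowed N S L) :
    ∃ σ : AlgebraicClosure L ≃ₐ[L] AlgebraicClosure L,
      ∀ f ∈ F, OneCycle σ (f.map (algebraMap k L)) := by
  haveI : CharZero (AlgebraicClosure L) :=
    charZero_of_injective_algebraMap (algebraMap L (AlgebraicClosure L)).injective
  haveI : Module.Finite k L := Module.Finite.of_restrictScalars_finite ℚ k L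
  haveI : IsAlgClosed (AlgebraicClosure L) := inferInstance
  rcases hL with ⟨M, hMn, hM, hns⟩ | hL | hL
  · exact full_fam h5 hN hF L M hMn (fun x _ => hM x) fun f hf => hns f (hS f hf)
  · refine full_fam h5 hN hF L (solvM k (AlgebraicClosure L)) (solvM_normal _) (fun x _ => ?_)
      fun f hf => solvM_not_splits _ (hF f hf).2.1 (by rw [(hF f hf).1.2]; exact h5) (hF f hf).2.2
    exact mem_solvM (Algebra.IsSeparable.isSeparable k x) (hL x)
  · obtain ⟨α, hα⟩ := Field.exists_primitive_element k L
    obtain ⟨g, hg⟩ : ∃ g, g = minpoly k α := ⟨_, rfl⟩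
    have hgd : g.natDegree < N := by
      rw [hg, (Field.primitive_element_iff_minpoly_natDegree_eq k α).1 hα]
      exact hL
    haveI := IntermediateField.adjoin_rootSet_isSplittingField (K := k) (L := AlgebraicClosure L)
      (p := g) (IsAlgClosed.splits _)
    refine full_fam h5 hN hF L
      (IntermediateField.adjoin k (g.rootSet (AlgebraicClosure L))) (Normal.of_isSplittingField g)
      (fun x _ => ?_)
      fun f hf => small_not_splits (by omega) (hF f hf).2.1 (hF f hf).1.2 (hF f hf).2.2 hgd
    have h1 : x ∈ IntermediateField.adjoin k {α} := by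
      rw [hα]; exact IntermediateField.mem_top
    have h2 : IsScalarTower.toAlgHom k L (AlgebraicClosure L) x ∈
        (IntermediateField.adjoin k {α}).map (IsScalarTower.toAlgHom k L (AlgebraicClosure L)) :=
      ⟨x, h1, rfl⟩
    rw [IntermediateField.adjoin_map, Set.image_singleton] at h2
    refine IntermediateField.adjoin.mono k _ _ ?_ h2
    rintro _ rfl
    rw [mem_rootSet, hg]
    refine ⟨minpoly.ne_zero (Algebra.IsIntegral.isIntegral α), ?_⟩
    rw [aeval_algHom_apply, minpoly.aeval, map_zero]

end Pool.Agent.J4H46.TR
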