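import Pool.Agent.J4H46.TA.Grp

/-!
Permutation groups: simultaneous long cycles for any number of actions which are onto the symmetric groups.
-/

set_option autoImplicit false
set_option linter.all false

open scoped Classical Nat
open Equiv Equiv.Perm

namespace Pool.Agent.J4H46.TR

open Pool.Agent.J4H46.TA

section basic

theorem alt_of {G Z : Type} [Group G] [Fintype Z] {N : ℕ} (hZ : Fintype.card Z = N) (h5 : 5 ≤ N)
    {γ : G →* Perm Z} (sγ : Function.Surjective γ) {K : Subgroup G} (hK : K.Normal)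
    (hne : ∃ h ∈ K, γ h ≠ 1) : ∀ c ∈ alternatingGroup Z, ∃ h ∈ K, γ h = c := by
  intro c hc
  haveI : (K.map γ).Normal := hK.map _ sγ
  have hnt : Nontrivial (K.map γ) := by
    rw [Subgroup.nontrivial_iff_ne_bot]
    intro hbot
    obtain ⟨h, hh, hh'⟩ := hne
    apply hh'
    rw [← Subgroup.mem_bot, ← hbot]
    exact ⟨h, hh, rfl⟩
  exact alternatingGroup_le_of_normal (by rw [Nat.card_eq_fintype_card, hZ]; exact h5) hnt hc

theorem sq_alt {Z : Type} [Fintype Z] (π : Perm Z) : π * π ∈ alternatingGroup Z := by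
  rw [mem_alternatingGroup, Perm.sign_mul, Int.units_mul_self]

theorem ord_cyc {Z : Type} [Fintype Z] {r : ℕ} {π : Perm Z} (h : π.cycleType = {r}) :
    orderOf π = r := by
  rw [← lcm_cycleType, h]; simp

theorem nsq {Z : Type} [Fintype Z] {r : ℕ} (hr : 4 ≤ r) {π : Perm Z} (h : π.cycleType = {r}) :
    π * π ≠ 1 := by
  intro h'
  have h3 := ord_cyc h
  have h4 : orderOf π ∣ 2 := orderOf_dvd_of_pow_eq_one (by rw [pow_two]; exact h')
  rw [h3] at h4
  have := Nat.le_of_dvd two_pos h4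
  omega

theorem sq_cyc {Z : Type} [Fintype Z] {r : ℕ} (hr : Odd r) {π : Perm Z} (h : π.cycleType = {r}) :
    (π * π).cycleType = {r} := by
  have hcyc : π.IsCycle := by rw [← card_cycleType_eq_one, h]; simp
  have hsupp : π.support.card = r := by rw [← sum_cycleType, h]; simp
  have ho := ord_cyc h
  have hco : Nat.Coprime 2 (orderOf π) := by
    rw [ho]
    exact (Nat.coprime_two_left).2 hr
  have hc2 : (π ^ 2).IsCycle := hcyc.pow_iff.2 hco
  rw [← pow_two, hc2.cycleType, support_pow_coprime hco, hsupp]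

end basic

/-- Transfer between two actions with the same kernel on `H`. -/
theorem transfer {G X Y : Type} [Group G] [Fintype X] [Fintype Y] {N r : ℕ}
    (hX : Fintype.card X = N) (hY : Fintype.card Y = N) (h5 : 5 ≤ N) (hr : Odd r) (hrN : r ≤ N)
    (hNr : N ≤ r + 1) {α : G →* Perm X} {β : G →* Perm Y} (sα : Function.Surjective α)
    (sβ : Function.Surjective β) {H : Subgroup G} (hH : H.Normal)
    (h2 : ∃ h ∈ H, β h ≠ 1) (hB : ∀ h ∈ H ⊓ α.ker, β h = 1) {h : G} (hh : h ∈ H)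
    (eα : (α h).cycleType = {r}) : (β h).cycleType = {r} := by
  obtain ⟨c', cA', hc'⟩ := exists_odd_cyc hY h5 hr hrN hNr
  have hA : ∀ x ∈ H ⊓ β.ker, α x = 1 := by
    by_contra hA
    push Not at hA
    obtain ⟨y, hy, ey⟩ := alt_of hY h5 sβ hH h2 c' cA'
    obtain ⟨κ, hκ, eκ⟩ := alt_of hX h5 sα (K := H ⊓ β.ker) inferInstance hA _ (sq_alt (α y))
    have h3 := hB (y * y * κ⁻¹) (Subgroup.mem_inf.2 ⟨H.mul_mem (H.mul_mem hy hy) (H.inv_mem hκ.1), by
      rw [MonoidHom.mem_ker, map_mul, map_mul, map_inv, eκ, mul_inv_cancel]⟩)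
    rw [map_mul, map_mul, map_inv, MonoidHom.mem_ker.1 hκ.2, inv_one, mul_one, ey] at h3
    exact nsq (by omega) hc' h3
  apply cyc_transfer hY h5 hr hrN hNr
  · rw [← ord_cyc eα]
    apply Nat.dvd_antisymm
    · apply orderOf_dvd_of_pow_eq_one
      rw [← map_pow]
      apply hB
      refine Subgroup.mem_inf.2 ⟨pow_mem hh _, ?_⟩
      rw [MonoidHom.mem_ker, map_pow, pow_orderOf_eq_one]
    · apply orderOf_dvd_of_pow_eq_one
      rw [← map_pow]
      apply hA
      refine Subgroup.mem_inf.2 ⟨pow_mem hh _, ?_⟩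
      rw [MonoidHom.mem_ker, map_pow, pow_orderOf_eq_one]
  · have hcent := cent_of_cyc (by rw [hX]; exact hNr) eα
    refine (half_card _).trans (Nat.mul_le_mul_left 2 ?_)
    rw [← hcent]
    have hch : ∀ z : (Subgroup.centralizer {β h} ⊓ alternatingGroup Y : Subgroup (Perm Y)),
        ∃ g ∈ H, β g = z := fun z => alt_of hY h5 sβ hH h2 _ z.2.2
    choose g hg eg using hch
    refine Nat.card_le_card_of_injective (fun z => ⟨α (g z), ?_⟩) ?_
    · rw [Subgroup.mem_centralizer_singleton_iff]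
      have h3 : β (g z) * β h = β h * β (g z) := by
        rw [eg]
        exact Subgroup.mem_centralizer_singleton_iff.1 z.2.1
      have h4 := hA (g z * h * (g z)⁻¹ * h⁻¹) (Subgroup.mem_inf.2
        ⟨H.mul_mem (H.mul_mem (H.mul_mem (hg z) hh) (H.inv_mem (hg z))) (H.inv_mem hh), by
          rw [MonoidHom.mem_ker, map_mul, map_mul, map_mul, map_inv, map_inv, h3]
          group⟩)
      rw [map_mul, map_mul, map_mul, map_inv, map_inv, mul_inv_eq_one, mul_inv_eq_iff_eq_mul]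
        at h4
      exact h4
    · intro z w hzw
      have h3 : α (g z) = α (g w) := congrArg Subtype.val hzw
      have h4 := hB (g z * (g w)⁻¹) (Subgroup.mem_inf.2 ⟨H.mul_mem (hg z) (H.inv_mem (hg w)), by
        rw [MonoidHom.mem_ker, map_mul, map_inv, h3, mul_inv_cancel]⟩)
      rw [map_mul, map_inv, mul_inv_eq_one, eg, eg] at h4
      exact Subtype.ext h4

/-- Noncommuting elements of the alternating group. -/
theorem noncomm {Z : Type} [Fintype Z] (hZ : 5 ≤ Fintype.card Z) {c : Perm Z}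
    (hc : c ∈ alternatingGroup Z) (h1 : c ≠ 1) :
    ∃ c' ∈ alternatingGroup Z, c * c' * c⁻¹ * c'⁻¹ ≠ 1 := by
  by_contra hcon
  push Not at hcon
  have h3 : 4 ≤ Nat.card Z := by rw [Nat.card_eq_fintype_card]; omega
  have hcen := alternatingGroup.center_eq_bot (α := Z) h3
  have hmem : (⟨c, hc⟩ : alternatingGroup Z) ∈ Subgroup.center (alternatingGroup Z) := by
    rw [Subgroup.mem_center_iff]
    rintro ⟨g, hg⟩
    have h4 := hcon g hg
    rw [mul_inv_eq_one, mul_inv_eq_iff_eq_mul] at h4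
    exact Subtype.ext h4.symm
  rw [hcen, Subgroup.mem_bot] at hmem
  exact h1 (congrArg Subtype.val hmem)

section fam

variable {G ι : Type} [Group G] {X : ι → Type} [∀ i, Fintype (X i)] {N r : ℕ}

/-- If no kernel of the actions in `t` kills the last action then their intersection does not either. -/
theorem inter_moves (hX : ∀ i, Fintype.card (X i) = N) (h5 : 5 ≤ N) (hr : Odd r) (hrN : r ≤ N)
    (hNr : N ≤ r + 1) {γ : ∀ i, G →* Perm (X i)} (sγ : ∀ i, Function.Surjective (γ i))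
    {H : Subgroup G} (hH : H.Normal) {j : ι} (hj : ∃ h ∈ H, γ j h ≠ 1) (t : Finset ι)
    (ht : ∀ i ∈ t, ∃ h ∈ H, γ i h = 1 ∧ γ j h ≠ 1) :
    ∃ h ∈ H, (∀ i ∈ t, γ i h = 1) ∧ γ j h ≠ 1 := by
  induction t using Finset.induction_on with
  | empty =>
    obtain ⟨h, h1, h2⟩ := hj
    exact ⟨h, h1, fun i hi => absurd hi (Finset.notMem_empty i), h2⟩
  | insert i t hi ih =>
    obtain ⟨x, hx, hx1, hx2⟩ := ih fun i' hi' => ht i' (Finset.mem_insert_of_mem hi')
    obtain ⟨K, hK⟩ : ∃ K : Subgroup G, K = H ⊓ ⨅ i' ∈ t, (γ i').ker := ⟨_, rfl⟩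
    have hKn : K.Normal := by
      rw [hK]
      haveI : (⨅ i' ∈ t, (γ i').ker).Normal := by
        refine Subgroup.normal_iInf_normal fun i' => ?_
        exact Subgroup.normal_iInf_normal fun _ => inferInstance
      infer_instance
    have memK : ∀ y, y ∈ K ↔ y ∈ H ∧ ∀ i' ∈ t, γ i' y = 1 := by
      intro y
      rw [hK, Subgroup.mem_inf, Subgroup.mem_iInf]
      simp only [Subgroup.mem_iInf, MonoidHom.mem_ker]
    obtain ⟨c, cA, hc⟩ := exists_odd_cyc (hX j) h5 hr hrN hNr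
    have hc1 : c ≠ 1 := by
      rintro rfl
      exact nsq (by omega) hc (mul_one 1)
    obtain ⟨c', cA', hcc⟩ := noncomm (by rw [hX j]; exact h5) cA hc1
    obtain ⟨u, hu, eu⟩ := alt_of (hX j) h5 (sγ j) hKn ⟨x, (memK x).2 ⟨hx, hx1⟩, hx2⟩ c cA
    obtain ⟨y, hy, hy1, hy2⟩ := ht i (Finset.mem_insert_self i t)
    obtain ⟨w, hw, ew⟩ := alt_of (hX j) h5 (sγ j) (K := H ⊓ (γ i).ker) inferInstance
      ⟨y, Subgroup.mem_inf.2 ⟨hy, hy1⟩, hy2⟩ c' cA'
    obtain ⟨u1, u2⟩ := (memK u).1 hu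
    obtain ⟨w1, w2⟩ := Subgroup.mem_inf.1 hw
    have w3 : γ i w = 1 := w2
    refine ⟨u * w * u⁻¹ * w⁻¹, H.mul_mem (H.mul_mem (H.mul_mem u1 w1) (H.inv_mem u1)) (H.inv_mem w1),
      ?_, ?_⟩
    · intro i' hi'
      rw [map_mul, map_mul, map_mul, map_inv, map_inv]
      rcases Finset.mem_insert.1 hi' with rfl | hi'
      · rw [w3]; group
      · rw [u2 i' hi']; group
    · rw [map_mul, map_mul, map_mul, map_inv, map_inv, eu, ew]
      exact hcc

/-- **Simultaneous long cycles.** -/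
theorem all_cyc (hX : ∀ i, Fintype.card (X i) = N) (h5 : 5 ≤ N) (hr : Odd r) (hrN : r ≤ N)
    (hNr : N ≤ r + 1) {γ : ∀ i, G →* Perm (X i)} (sγ : ∀ i, Function.Surjective (γ i))
    {H : Subgroup G} (hH : H.Normal) (s : Finset ι) (hs : ∀ i ∈ s, ∃ h ∈ H, γ i h ≠ 1) :
    ∃ h ∈ H, ∀ i ∈ s, (γ i h).cycleType = {r} := by
  induction s using Finset.induction_on with
  | empty => exact ⟨1, H.one_mem, fun i hi => absurd hi (Finset.notMem_empty i)⟩
  | insert j s hj ih =>
    obtain ⟨h, hh, hall⟩ := ih fun i hi => hs i (Finset.mem_insert_of_mem hi)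
    have hj' := hs j (Finset.mem_insert_self j s)
    by_cases hcase : ∃ i ∈ s, ∀ x ∈ H ⊓ (γ i).ker, γ j x = 1
    · obtain ⟨i, hi, hB⟩ := hcase
      refine ⟨h, hh, fun i' hi' => ?_⟩
      rcases Finset.mem_insert.1 hi' with rfl | hi'
      · exact transfer (hX i) (hX i') h5 hr hrN hNr (sγ i) (sγ i') hH hj' hB hh (hall i hi)
      · exact hall i' hi'
    · push Not at hcase
      obtain ⟨x, hx, hx1, hx2⟩ := inter_moves hX h5 hr hrN hNr sγ hH hj' s fun i hi => by
        obtain ⟨y, hy, hy'⟩ := hcase i hi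
        exact ⟨y, (Subgroup.mem_inf.1 hy).1, (Subgroup.mem_inf.1 hy).2, hy'⟩
      obtain ⟨K, hK⟩ : ∃ K : Subgroup G, K = H ⊓ ⨅ i' ∈ s, (γ i').ker := ⟨_, rfl⟩
      have hKn : K.Normal := by
        rw [hK]
        haveI : (⨅ i' ∈ s, (γ i').ker).Normal := by
          refine Subgroup.normal_iInf_normal fun i' => ?_
          exact Subgroup.normal_iInf_normal fun _ => inferInstance
        infer_instance
      have memK : ∀ y, y ∈ K ↔ y ∈ H ∧ ∀ i' ∈ s, γ i' y = 1 := by
        intro y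
        rw [hK, Subgroup.mem_inf, Subgroup.mem_iInf]
        simp only [Subgroup.mem_iInf, MonoidHom.mem_ker]
      obtain ⟨c, cA, hc⟩ := exists_odd_cyc (hX j) h5 hr hrN hNr
      obtain ⟨κ, hκ, eκ⟩ := alt_of (hX j) h5 (sγ j) hKn ⟨x, (memK x).2 ⟨hx, hx1⟩, hx2⟩
        ((γ j h * γ j h)⁻¹ * c) (mul_mem (inv_mem (sq_alt _)) cA)
      obtain ⟨k1, k2⟩ := (memK κ).1 hκ
      refine ⟨h * h * κ, H.mul_mem (H.mul_mem hh hh) k1, fun i' hi' => ?_⟩
      rcases Finset.mem_insert.1 hi' with rfl | hi'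
      · rw [map_mul, map_mul, eκ, mul_inv_cancel_left]
        exact hc
      · rw [map_mul, map_mul, k2 i' hi', mul_one]
        exact sq_cyc hr (hall i' hi')

end fam

end Pool.Agent.J4H46.TR
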