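import Pool.Agent.J4H46.TR.Sieve

/-!
The forms of a map over the allowed extensions.
-/

set_option autoImplicit false
set_option linter.all false

open Polynomial NumberField IsDedekindDomain
open scoped Classical

namespace Pool.Agent.J4H46.TR

open Pool.Agent.X243.Gen (FF FF_unit)
open Pool.Agent.J4H46.TP (OneAt MapDeg OneCycle)
open Pool.Agent.J4H46.TA (map_map_int)
open Pool.Agent.Y160.T3 (bF)

section

variable {k : Type} [Field k] [NumberField k]

/-- One point above each of the bad places, over the extension `L`. -/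
theorem forms_over {n : ℕ} (h5 : 5 ≤ n) (hn : Odd n) {g q r : (𝓞 k)[X]} (hg : g ≠ 0)
    (hs : (g.map (algebraMap (𝓞 k) k)).Splits) (hG : GenGood n g q r) {I : Prop} {S : k[X] → Prop}
    (hS : ∀ f, ((∃ ξ : k, (g.map (algebraMap (𝓞 k) k)).IsRoot ξ ∧
      f = q.map (algebraMap (𝓞 k) k) - C ξ * r.map (algebraMap (𝓞 k) k)) ∨
      (I ∧ f = r.map (algebraMap (𝓞 k) k))) → S f)
    (L : Type) [Field L] [NumberField L] [Algebra k L] (hL : Allowed n S L) :
    MapDeg n (q.map (algebraMap (𝓞 k) (𝓞 L))) (r.map (algebraMap (𝓞 k) (𝓞 L))) ∧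
    ((g.map (algebraMap (𝓞 k) (𝓞 L))).map (algebraMap (𝓞 L) L)).Splits ∧
    ∃ σ : AlgebraicClosure L ≃ₐ[L] AlgebraicClosure L,
      (∀ ξ : L, ((g.map (algebraMap (𝓞 k) (𝓞 L))).map (algebraMap (𝓞 L) L)).IsRoot ξ →
        OneAt σ n ((q.map (algebraMap (𝓞 k) (𝓞 L))).map (algebraMap (𝓞 L) L) -
          C ξ * (r.map (algebraMap (𝓞 k) (𝓞 L))).map (algebraMap (𝓞 L) L))) ∧
      (I → OneAt σ n ((r.map (algebraMap (𝓞 k) (𝓞 L))).map (algebraMap (𝓞 L) L))) := by
  have inj := FaithfulSMul.algebraMap_injective (𝓞 k) k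
  have injL : Function.Injective (algebraMap (𝓞 k) (𝓞 L)) := inj_int
  have hg0 : g.map (algebraMap (𝓞 k) k) ≠ 0 := by
    rw [Ne, Polynomial.map_eq_zero_iff inj]
    exact hg
  have dq : q.natDegree = n := by rw [← hG.fq.1.2, natDegree_map_eq_of_injective inj]
  have dr : r.natDegree = n := by rw [← hG.fr.1.2, natDegree_map_eq_of_injective inj]
  obtain ⟨F, hF⟩ : ∃ F : Finset k[X], F = ((g.map (algebraMap (𝓞 k) k)).roots.toFinset.image
      fun ξ => q.map (algebraMap (𝓞 k) k) - C ξ * r.map (algebraMap (𝓞 k) k)) ∪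
      (if I then {r.map (algebraMap (𝓞 k) k)} else ∅) := ⟨_, rfl⟩
  have memF : ∀ f, f ∈ F ↔ ((∃ ξ : k, (g.map (algebraMap (𝓞 k) k)).IsRoot ξ ∧
      f = q.map (algebraMap (𝓞 k) k) - C ξ * r.map (algebraMap (𝓞 k) k)) ∨
      (I ∧ f = r.map (algebraMap (𝓞 k) k))) := by
    intro f
    rw [hF, Finset.mem_union, Finset.mem_image]
    refine or_congr ?_ ?_
    · constructor
      · rintro ⟨ξ, h1, h2⟩
        rw [Multiset.mem_toFinset, mem_roots hg0] at h1
        exact ⟨ξ, h1, h2.symm⟩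
      · rintro ⟨ξ, h1, h2⟩
        refine ⟨ξ, ?_, h2.symm⟩
        rw [Multiset.mem_toFinset, mem_roots hg0]
        exact h1
    · by_cases hI : I
      · rw [if_pos hI, Finset.mem_singleton]
        exact ⟨fun h => ⟨hI, h⟩, fun h => h.2⟩
      · rw [if_neg hI]
        exact ⟨fun h => absurd h (Finset.notMem_empty f), fun h => absurd h.1 hI⟩
  have hFF : ∀ f ∈ F, FF n f := by
    intro f hf
    rcases (memF f).1 hf with ⟨ξ, hξ, rfl⟩ | ⟨-, rfl⟩
    · exact hG.fm ξ hξ
    · exact hG.fr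
  obtain ⟨σ, hσ⟩ := allowed_fam h5 hn hFF L (fun f hf => hS f ((memF f).1 hf)) hL
  have one : ∀ f ∈ F, OneAt σ n (f.map (algebraMap k L)) := by
    intro f hf
    refine ⟨1, f.map (algebraMap k L), 1, one_ne_zero, (hFF f hf).2.1.map, ?_, ?_, hσ f hf⟩
    · rw [one_mul, natDegree_map, (hFF f hf).1.2]
    · rw [C_1, one_mul, pow_one]
  refine ⟨⟨?_, ?_, ?_, ?_, hn⟩, ?_, σ, ?_, ?_⟩
  · rw [map_map_int, map_map_int]
    exact hG.co.map (mapRingHom (algebraMap k L))
  · rw [natDegree_map_eq_of_injective injL, dq]; omega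
  · rw [natDegree_map_eq_of_injective injL, dq]
  · rw [natDegree_map_eq_of_injective injL, dr]
  · rw [map_map_int]
    exact hs.map (algebraMap k L)
  · intro ξ hξ
    rw [map_map_int] at hξ
    rw [map_map_int, map_map_int]
    obtain ⟨η, rfl⟩ := hs.mem_range_of_isRoot hg0 hξ
    have hη : (g.map (algebraMap (𝓞 k) k)).IsRoot η := by
      rw [IsRoot.def, eval_map_apply, map_eq_zero] at hξ
      exact hξ
    have := one _ ((memF _).2 (Or.inl ⟨η, hη, rfl⟩))
    rw [Polynomial.map_sub, Polynomial.map_mul, map_C] at this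
    exact this
  · intro hI
    rw [map_map_int]
    exact one _ ((memF _).2 (Or.inr ⟨hI, rfl⟩))

end

end Pool.Agent.J4H46.TR
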