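import Pool.Agent.J4H46.TR.Over
import Pool.Agent.J4H46.TP.Full

/-!
Pullbacks of the rational elliptic surfaces with full level two: the allowed extensions.
-/

set_option autoImplicit false
set_option linter.all false

open Polynomial NumberField IsDedekindDomain Filter Topology
open scoped Classical

namespace Pool.Agent.J4H46.TR

open Pool.Agent.W401.Cheb Pool.Agent.J4H46.TP
open Pool.Agent.X243.Gen (FF)
open Pool.Agent.N181.TC (Full2)
open Pool.Agent.J4H46.TA (map_map_int)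

section

variable {k : Type} [Field k] [NumberField k]

theorem pos_F {n : ℕ} (h5 : 5 ≤ n) (hn : Odd n) {a b q r : (𝓞 k)[X]}
    (hB : Full2 (a.map (algebraMap (𝓞 k) k)) (b.map (algebraMap (𝓞 k) k)))
    (hs : ((a * b * (a - b)).map (algebraMap (𝓞 k) k)).Splits)
    (hG : GenGood n (a * b * (a - b)) q r) (L : Type) [Field L] [NumberField L] [Algebra k L]
    (hL : Allowed n (FormF a b q r) L) :
    ∃ δ : ℝ, 0 < δ ∧ ∀ᶠ N : ℕ in atTop,
      δ ≤ dens (GoodF n (a.map (algebraMap (𝓞 k) (𝓞 L))) (b.map (algebraMap (𝓞 k) (𝓞 L)))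
        (q.map (algebraMap (𝓞 k) (𝓞 L))) (r.map (algebraMap (𝓞 k) (𝓞 L)))) N := by
  have inj := FaithfulSMul.algebraMap_injective (𝓞 k) k
  have injL : Function.Injective (algebraMap (𝓞 k) (𝓞 L)) := inj_int
  have hg : a * b * (a - b) ≠ 0 := gF_ne ⟨hB, hs⟩
  have dr : r.natDegree = n := by rw [← hG.fr.1.2, natDegree_map_eq_of_injective inj]
  have hr1 : r ≠ 1 := by
    rintro rfl
    rw [natDegree_one] at dr
    omega
  obtain ⟨hM, hsL, σ, h1, h2⟩ := forms_over h5 hn hg hs hG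
    (I := (a * b * (a - b)).natDegree = 5) (S := FormF a b q r)
    (by
      rintro f (h | ⟨hI, h⟩)
      · exact Or.inl h
      · exact Or.inr ⟨hI, hr1, h⟩) L hL
  have emap : (a * b * (a - b)).map (algebraMap (𝓞 k) (𝓞 L)) =
      a.map (algebraMap (𝓞 k) (𝓞 L)) * b.map (algebraMap (𝓞 k) (𝓞 L)) *
        (a.map (algebraMap (𝓞 k) (𝓞 L)) - b.map (algebraMap (𝓞 k) (𝓞 L))) := by
    rw [Polynomial.map_mul, Polynomial.map_mul, Polynomial.map_sub]
  rw [emap] at hsL
  refine critF (a := a.map (algebraMap (𝓞 k) (𝓞 L))) (b := b.map (algebraMap (𝓞 k) (𝓞 L)))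
    ⟨?_, hsL⟩ hM (σ := σ) ?_
  · rw [map_map_int, map_map_int]
    exact hB.map (algebraMap k L)
  · rintro f (⟨ξ, hξ, rfl⟩ | ⟨hI, -, rfl⟩)
    · rw [← emap] at hξ
      exact h1 ξ hξ
    · apply h2
      rw [← emap, natDegree_map_eq_of_injective injL] at hI
      exact hI

end

end Pool.Agent.J4H46.TR
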