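import Pool.Agent.J4H46.TR.Over
import Pool.Agent.J4H46.TQ.Good

/-!
Pullbacks of the rational elliptic surfaces with a section of order two: the allowed extensions.
-/

set_option autoImplicit false
set_option linter.all false

open Polynomial NumberField IsDedekindDomain Filter Topology
open scoped Classical

namespace Pool.Agent.J4H46.TR

open Pool.Agent.W401.Cheb Pool.Agent.J4H46.TQ
open Pool.Agent.X243.Gen (FF)
open Pool.Agent.N181.P9 (RatBase2)
open Pool.Agent.J4H46.TA (map_map_int)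

section

variable {k : Type} [Field k] [NumberField k]

theorem pos_Q {n : ℕ} (h5 : 5 ≤ n) (h6 : Nat.Coprime n 6) {a b q r : (𝓞 k)[X]}
    (hB : RatBase2 (a.map (algebraMap (𝓞 k) k)) (b.map (algebraMap (𝓞 k) k)))
    (hs : ((b * (a ^ 2 - 4 * b)).map (algebraMap (𝓞 k) k)).Splits)
    (hG : GenGood n (b * (a ^ 2 - 4 * b)) q r) (L : Type) [Field L] [NumberField L] [Algebra k L]
    (hL : Allowed n (FormQ a b q r) L) :
    ∃ δ : ℝ, 0 < δ ∧ ∀ᶠ N : ℕ in atTop,
      δ ≤ dens (GoodQ n (a.map (algebraMap (𝓞 k) (𝓞 L))) (b.map (algebraMap (𝓞 k) (𝓞 L)))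
        (q.map (algebraMap (𝓞 k) (𝓞 L))) (r.map (algebraMap (𝓞 k) (𝓞 L)))) N := by
  have inj := FaithfulSMul.algebraMap_injective (𝓞 k) k
  have injL : Function.Injective (algebraMap (𝓞 k) (𝓞 L)) := inj_int
  have hn : Odd n := by
    rw [← Nat.not_even_iff_odd, even_iff_two_dvd]
    exact Pool.Agent.N181.P9.two_of_six h6 (dvd_refl n)
  have hg : b * (a ^ 2 - 4 * b) ≠ 0 := (gQ_deg ⟨hB, hs⟩).2.2.2
  have dr : r.natDegree = n := by rw [← hG.fr.1.2, natDegree_map_eq_of_injective inj]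
  have hr1 : r ≠ 1 := by
    rintro rfl
    rw [natDegree_one] at dr
    omega
  obtain ⟨hM, hsL, σ, h1, h2⟩ := forms_over h5 hn hg hs hG (I := InfQ a b) (S := FormQ a b q r)
    (by
      rintro f (h | ⟨hI, h⟩)
      · exact Or.inl h
      · exact Or.inr ⟨hI, hr1, h⟩) L hL
  have emap : (b * (a ^ 2 - 4 * b)).map (algebraMap (𝓞 k) (𝓞 L)) =
      b.map (algebraMap (𝓞 k) (𝓞 L)) * ((a.map (algebraMap (𝓞 k) (𝓞 L))) ^ 2 -
        4 * b.map (algebraMap (𝓞 k) (𝓞 L))) := by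
    rw [Polynomial.map_mul, gQ_map]
  rw [emap] at hsL
  refine critQ (a := a.map (algebraMap (𝓞 k) (𝓞 L))) (b := b.map (algebraMap (𝓞 k) (𝓞 L)))
    ⟨?_, hsL⟩ hM h6 (σ := σ) ?_
  · rw [map_map_int, map_map_int]
    exact hB.map (algebraMap k L)
  · rintro f (⟨ξ, hξ, rfl⟩ | ⟨hI, -, rfl⟩)
    · rw [← emap] at hξ
      exact h1 ξ hξ
    · apply h2
      intro hcon
      apply hI
      rw [← gQ_map, natDegree_map_eq_of_injective injL, natDegree_map_eq_of_injective injL]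
      exact hcon

end

end Pool.Agent.J4H46.TR
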