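import Pool.Agent.J4H46.TR.Split
import Pool.Agent.J4H46.TR.Fld
import Pool.Agent.N181.P3.Dens

/-!
The sieve for pairs of polynomials over a number field `k`, whose combinations with coefficients in an extension
`k'` have the full symmetric Galois groups.
-/

set_option autoImplicit false
set_option linter.all false

open Polynomial NumberField IsDedekindDomain
open scoped Classical

namespace Pool.Agent.J4H46.TR

open Pool.Agent.N181.P3 (Zq Idx cl cm cl_ne cl_det Lev_card' linQ)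
open Pool.Agent.X243.Gen (FF FF_unit Lev densityU)
open Pool.Agent.X243.Sol (DD D3_pos)
open Pool.Agent.X243.Tate (bF_map)
open Pool.Agent.Y160.T3 (bF)

section

variable {k k' : Type} [Field k] [NumberField k] [Field k'] [NumberField k'] [Algebra k k']

/-- The transported events. -/
def Gs {n μ : ℕ} (D : 𝓞 k) (ρ : Fin μ → 𝓞 k') (s : Option (Idx μ × Fin 3)) (p : Ideal (𝓞 k)) :
    Set (Fin (n + 1) ⊕ Fin (n + 1) → 𝓞 k ⧸ p) :=
  {x | ∃ (P : Ideal (𝓞 k')) (hP : P.comap (algebraMap (𝓞 k) (𝓞 k')) = p),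
    P ∈ Zq (𝓞 k') (2 * n + 2) (algebraMap (𝓞 k) (𝓞 k') D) ∧
    (fun j => Ideal.quotientMap P (algebraMap (𝓞 k) (𝓞 k')) (le_of_eq hP.symm) (x j)) ∈
      Lev n (cl (algebraMap (𝓞 k) (𝓞 k') D)) (cm ρ) none (some none) s P}

theorem Gs_card {n μ : ℕ} (hn : 3 ≤ n) {D : 𝓞 k} (ρ : Fin μ → 𝓞 k')
    (s : Option (Idx μ × Fin 3)) {p : Ideal (𝓞 k)} (hp : p ∈ Zs k k' (2 * n + 2) D) :
    Nat.card (𝓞 k ⧸ p) ^ (2 * n + 2) ≤ (DD n * DD n) * (Gs (n := n) D ρ s p).ncard := by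
  obtain ⟨hm, hfin, hcard, hD, P, hPm, hP, hsurj⟩ := hp
  haveI := hfin
  obtain ⟨e, he⟩ : ∃ e : (𝓞 k ⧸ p) →+* (𝓞 k' ⧸ P),
      e = Ideal.quotientMap P (algebraMap (𝓞 k) (𝓞 k')) (le_of_eq hP.symm) := ⟨_, rfl⟩
  have hmk : ∀ z, e (Ideal.Quotient.mk p z) = Ideal.Quotient.mk P (algebraMap (𝓞 k) (𝓞 k') z) := by
    intro z; rw [he]; rfl
  have esurj : Function.Surjective e := by
    intro x
    obtain ⟨z, hz⟩ := hsurj x
    exact ⟨Ideal.Quotient.mk p z, by rw [hmk, ← hz]; rfl⟩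
  have einj : Function.Injective e := by
    rw [injective_iff_map_eq_zero]
    intro x hx
    obtain ⟨z, rfl⟩ := Ideal.Quotient.mk_surjective x
    rw [hmk, Ideal.Quotient.eq_zero_iff_mem, ← Ideal.mem_comap, hP] at hx
    exact Ideal.Quotient.eq_zero_iff_mem.2 hx
  have ecard : Nat.card (𝓞 k ⧸ p) = Nat.card (𝓞 k' ⧸ P) :=
    Nat.card_congr (Equiv.ofBijective e ⟨einj, esurj⟩)
  haveI : Finite (𝓞 k' ⧸ P) := Finite.of_surjective e esurj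
  have hD' : algebraMap (𝓞 k) (𝓞 k') D ∉ P := by
    intro h
    apply hD
    rw [← hP]
    exact h
  have hZ : P ∈ Zq (𝓞 k') (2 * n + 2) (algebraMap (𝓞 k) (𝓞 k') D) :=
    ⟨hPm, inferInstance, by rw [← ecard]; exact hcard, hD'⟩
  have h1 := Lev_card' hn (cl (algebraMap (𝓞 k) (𝓞 k') D)) (cm ρ) none (some none) s hPm
    inferInstance hZ.2.2.1 (cl_ne ρ hPm hD') (cl_det _ ρ hPm)
  rw [ecard]
  refine h1.trans (Nat.mul_le_mul_left _ ?_)
  obtain ⟨T, hT⟩ : ∃ T : (Fin (n + 1) ⊕ Fin (n + 1) → 𝓞 k' ⧸ P) →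
      (Fin (n + 1) ⊕ Fin (n + 1) → 𝓞 k ⧸ p),
      T = fun z j => (Equiv.ofBijective e ⟨einj, esurj⟩).symm (z j) := ⟨_, rfl⟩
  have hTe : ∀ z j, e (T z j) = z j := by
    intro z j
    rw [hT]
    exact (Equiv.ofBijective e ⟨einj, esurj⟩).apply_symm_apply (z j)
  have hTinj : Function.Injective T := by
    intro z w h
    funext j
    rw [← hTe z j, ← hTe w j, h]
  rw [← Set.ncard_image_of_injective _ hTinj]
  apply Set.ncard_le_ncard ?_ (Set.toFinite _)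
  rintro _ ⟨z, hz, rfl⟩
  refine ⟨P, hP, hZ, ?_⟩
  have : (fun j => Ideal.quotientMap P (algebraMap (𝓞 k) (𝓞 k')) (le_of_eq hP.symm) (T z j)) = z := by
    funext j
    rw [← he]
    exact hTe z j
  rw [this]
  exact hz

variable (k k') in
theorem densS {n μ : ℕ} (hn : 3 ≤ n) {D : 𝓞 k} (hD : D ≠ 0) (η : ℝ) (hη : 0 < η) :
    ∃ M : Ideal (𝓞 k), Finite (𝓞 k ⧸ M) ∧ ∀ ρ : Fin μ → 𝓞 k',
      (1 - η) * (Nat.card (𝓞 k ⧸ M) : ℝ) ^ (Fintype.card (Fin (n + 1) ⊕ Fin (n + 1))) ≤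
      (({x : Fin (n + 1) ⊕ Fin (n + 1) → 𝓞 k ⧸ M | ∀ y : Fin (n + 1) ⊕ Fin (n + 1) → 𝓞 k,
        (∀ j, Ideal.Quotient.mk M (y j) = x j) → ∀ s : Option (Idx μ × Fin 3),
        ∃ P ∈ Zq (𝓞 k') (2 * n + 2) (algebraMap (𝓞 k) (𝓞 k') D),
          (fun j => Ideal.Quotient.mk P (algebraMap (𝓞 k) (𝓞 k') (y j))) ∈
            Lev n (cl (algebraMap (𝓞 k) (𝓞 k') D)) (cm ρ) none (some none) s P}).ncard : ℝ) := by
  have hDD : 0 < DD n := by
    have := D3_pos n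
    unfold DD
    positivity
  have hD' : (0 : ℝ) < ((DD n * DD n : ℕ) : ℝ) := by
    have : 0 < DD n * DD n := Nat.mul_pos hDD hDD
    exact_mod_cast this
  obtain ⟨M, hM, h⟩ := densityU (Fin (n + 1) ⊕ Fin (n + 1)) (Option (Idx μ × Fin 3))
    (Zs k k' (2 * n + 2) D) (Zs_inf _ hD) (fun p hp => hp.1) (fun p hp => hp.2.1)
    (c := 1 / ((DD n * DD n : ℕ) : ℝ)) (by positivity) η hη
  haveI := hM
  refine ⟨M, hM, fun ρ => (h (fun s p => Gs D ρ s p) ?_).trans ?_⟩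
  · intro s p hp
    have h1 := Gs_card hn ρ s hp
    have hc : Fintype.card (Fin (n + 1) ⊕ Fin (n + 1)) = 2 * n + 2 := by
      rw [Fintype.card_sum, Fintype.card_fin]
      omega
    rw [hc, one_div, inv_mul_le_iff₀ hD']
    exact_mod_cast h1
  · have h5 : ∀ S T : Set (Fin (n + 1) ⊕ Fin (n + 1) → 𝓞 k ⧸ M), S ⊆ T →
        ((S.ncard : ℕ) : ℝ) ≤ ((T.ncard : ℕ) : ℝ) := fun S T h => by
      exact_mod_cast Set.ncard_le_ncard h (Set.toFinite _)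
    apply h5
    intro x hx y hy s
    obtain ⟨p, -, hp⟩ := hx s
    obtain ⟨P, hP, hZ, hL⟩ := hp y hy
    exact ⟨P, hZ, hL⟩

/-- The forms over `k'`, of degree `n`, for the roots of `g`, have the full symmetric Galois groups. -/
structure GenGood (n : ℕ) (g q r : (𝓞 k')[X]) : Prop where
  co : IsCoprime (q.map (algebraMap (𝓞 k') k')) (r.map (algebraMap (𝓞 k') k'))
  fq : FF n (q.map (algebraMap (𝓞 k') k'))
  fr : FF n (r.map (algebraMap (𝓞 k') k'))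
  fm : ∀ ξ : k', (g.map (algebraMap (𝓞 k') k')).IsRoot ξ →
    FF n (q.map (algebraMap (𝓞 k') k') - C ξ * r.map (algebraMap (𝓞 k') k'))

theorem inj_int : Function.Injective (algebraMap (𝓞 k) (𝓞 k')) := by
  have h3 : Function.Injective ((algebraMap (𝓞 k') k').comp (algebraMap (𝓞 k) (𝓞 k'))) := by
    have e : (algebraMap (𝓞 k') k').comp (algebraMap (𝓞 k) (𝓞 k')) =
      (algebraMap k k').comp (algebraMap (𝓞 k) k) := rfl
    rw [e]
    exact (algebraMap k k').injective.comp (FaithfulSMul.algebraMap_injective (𝓞 k) k)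
  exact Function.Injective.of_comp (f := algebraMap (𝓞 k') k') h3

variable (k k') in
/-- **The sieve.** -/
theorem dens_pairs {n : ℕ} (hn : 3 ≤ n) {g : (𝓞 k)[X]} (hg : g ≠ 0) (η : ℝ) (hη : 0 < η) :
    ∃ M : Ideal (𝓞 k), Finite (𝓞 k ⧸ M) ∧
      (1 - η) * (Nat.card (𝓞 k ⧸ M) : ℝ) ^ (Fintype.card (Fin (n + 1) ⊕ Fin (n + 1))) ≤
      (({x : Fin (n + 1) ⊕ Fin (n + 1) → 𝓞 k ⧸ M | ∀ y : Fin (n + 1) ⊕ Fin (n + 1) → 𝓞 k,
        (∀ j, Ideal.Quotient.mk M (y j) = x j) →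
          GenGood n (g.map (algebraMap (𝓞 k) (𝓞 k')))
            ((bF (y ∘ Sum.inl)).map (algebraMap (𝓞 k) (𝓞 k')))
            ((bF (y ∘ Sum.inr)).map (algebraMap (𝓞 k) (𝓞 k')))}).ncard : ℝ) := by
  have inj := inj_int (k := k) (k' := k')
  have injk := FaithfulSMul.algebraMap_injective (𝓞 k') k'
  obtain ⟨g', hg'⟩ : ∃ g', g' = g.map (algebraMap (𝓞 k) (𝓞 k')) := ⟨_, rfl⟩
  have hg'0 : g' ≠ 0 := by rw [hg', Ne, Polynomial.map_eq_zero_iff inj]; exact hg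
  have hl : g'.leadingCoeff = algebraMap (𝓞 k) (𝓞 k') g.leadingCoeff := by
    rw [hg', leadingCoeff_map_of_injective inj]
  have hl0 := leadingCoeff_ne_zero.2 hg
  have hd' : algebraMap (𝓞 k') k' (algebraMap (𝓞 k) (𝓞 k') g.leadingCoeff) ≠ 0 := by
    rw [Ne, map_eq_zero_iff _ injk, map_eq_zero_iff _ inj]
    exact hl0
  obtain ⟨Rt, hRt⟩ : ∃ Rt, Rt = (g'.map (algebraMap (𝓞 k') k')).roots.toFinset := ⟨_, rfl⟩
  have memR : ∀ ξ, ξ ∈ Rt ↔ (g'.map (algebraMap (𝓞 k') k')).IsRoot ξ := by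
    intro ξ
    rw [hRt, Multiset.mem_toFinset, mem_roots ((Polynomial.map_ne_zero_iff injk).2 hg'0)]
  obtain ⟨m, em⟩ : ∃ m, m = Rt.card := ⟨_, rfl⟩
  let φ : Fin m ≃ {x // x ∈ Rt} := (finCongr em).trans Rt.equivFin.symm
  have hint : ∀ i : Fin m, ∃ c : 𝓞 k', algebraMap (𝓞 k') k' c =
      algebraMap (𝓞 k') k' (algebraMap (𝓞 k) (𝓞 k') g.leadingCoeff) * (φ i).1 := by
    intro i
    obtain ⟨c, hc⟩ := Pool.Agent.J4H46.TP.root_int ((memR _).1 (φ i).2)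
    exact ⟨c, by rw [hc, hl]⟩
  choose ρ hρ using hint
  obtain ⟨M, hM, h⟩ := densS k k' (μ := m) hn hl0 η hη
  haveI := hM
  refine ⟨M, hM, (h ρ).trans ?_⟩
  have h5 : ∀ S T : Set (Fin (n + 1) ⊕ Fin (n + 1) → 𝓞 k ⧸ M), S ⊆ T →
      ((S.ncard : ℕ) : ℝ) ≤ ((T.ncard : ℕ) : ℝ) := fun S T h => by
    exact_mod_cast Set.ncard_le_ncard h (Set.toFinite _)
  apply h5
  intro x hx y hy
  have hev := hx y hy
  obtain ⟨f1, f2, f3, f4⟩ := linQ (R := 𝓞 k') (k := k') hn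
    (y := fun j => algebraMap (𝓞 k) (𝓞 k') (y j)) hev
    (((bF (y ∘ Sum.inl)).map (algebraMap (𝓞 k) (𝓞 k'))).map (algebraMap (𝓞 k') k'))
    (((bF (y ∘ Sum.inr)).map (algebraMap (𝓞 k) (𝓞 k'))).map (algebraMap (𝓞 k') k'))
    (by rw [bF_map]; rfl) (by rw [bF_map]; rfl)
  refine ⟨f4, f1, f2, fun ξ hξ => ?_⟩
  rw [← hg'] at hξ
  have hξ' := (memR ξ).2 hξ
  apply FF_unit hd'
  have h3 := f3 (φ.symm ⟨ξ, hξ'⟩)
  have e1 : algebraMap (𝓞 k') k' (ρ (φ.symm ⟨ξ, hξ'⟩)) =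
      algebraMap (𝓞 k') k' (algebraMap (𝓞 k) (𝓞 k') g.leadingCoeff) * ξ := by
    rw [hρ, Equiv.apply_symm_apply]
  rw [e1, C_mul, mul_assoc, ← mul_sub] at h3
  exact h3

end

end Pool.Agent.J4H46.TR
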