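import Pool.Agent.J4H46.TA.Crit

/-!
Primes of a number field with a prime of degree one above them in an extension.
-/

set_option autoImplicit false
set_option linter.all false

open Polynomial NumberField IsDedekindDomain Filter Topology
open scoped Classical

namespace Pool.Agent.J4H46.TR

open Pool.Agent.W401.Cheb Pool.Agent.J4H46.TA

/-- A subfield with `q` elements of a field in which all the elements satisfy `x ^ q = x` is everything. -/
theorem surj_of_pow {κ κ' : Type} [Field κ] [Finite κ] [Field κ'] (f : κ →+* κ')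
    (h : ∀ x : κ', x ^ Nat.card κ = x) : Function.Surjective f := by
  letI := Fintype.ofFinite κ
  have hq : Nat.card κ = Fintype.card κ := Nat.card_eq_fintype_card
  have hq1 : 1 < Fintype.card κ := Fintype.one_lt_card
  intro x
  obtain ⟨p, hp⟩ : ∃ p : κ'[X], p = X ^ Fintype.card κ - X := ⟨_, rfl⟩
  have hp0 : p ≠ 0 := by rw [hp]; exact FiniteField.X_pow_card_sub_X_ne_zero κ' hq1
  have hd : p.natDegree = Fintype.card κ := by
    rw [hp]; exact FiniteField.X_pow_card_sub_X_natDegree_eq κ' hq1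
  have hroot : ∀ y : κ', y ∈ p.roots.toFinset := by
    intro y
    rw [Multiset.mem_toFinset, mem_roots hp0, hp, IsRoot.def, eval_sub, eval_pow, eval_X, ← hq, h,
      sub_self]
  have h1 : (Finset.univ.image f).card = Fintype.card κ := by
    rw [Finset.card_image_of_injective _ f.injective, Finset.card_univ]
  have h2 : Finset.univ.image f = p.roots.toFinset := by
    apply Finset.eq_of_subset_of_card_le (fun y _ => hroot y)
    rw [h1, ← hd]
    exact (Multiset.toFinset_card_le _).trans (card_roots' _)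
  have h3 := hroot x
  rw [← h2, Finset.mem_image] at h3
  obtain ⟨y, -, hy⟩ := h3
  exact ⟨y, hy⟩

section

variable (k k' : Type) [Field k] [NumberField k] [Field k'] [NumberField k'] [Algebra k k']

/-- The maximal ideals with a degree one prime above them. -/
def Zs (B : ℕ) (D : 𝓞 k) : Set (Ideal (𝓞 k)) :=
  {p | p.IsMaximal ∧ Finite (𝓞 k ⧸ p) ∧ B ≤ Nat.card (𝓞 k ⧸ p) ∧ D ∉ p ∧
    ∃ P : Ideal (𝓞 k'), P.IsMaximal ∧ P.comap (algebraMap (𝓞 k) (𝓞 k')) = p ∧
      Function.Surjective ((Ideal.Quotient.mk P).comp (algebraMap (𝓞 k) (𝓞 k')))}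

variable {k k'}

theorem above_of_frob (i : k' →ₐ[k] AlgebraicClosure k) {σ : GK k} (hσ : ∀ x : k', σ (i x) = i x)
    {v : HeightOneSpectrum (𝓞 k)} (hv : IsFrob v σ) :
    ∃ P : Ideal (𝓞 k'), P.IsMaximal ∧ P.comap (algebraMap (𝓞 k) (𝓞 k')) = v.asIdeal ∧
      Function.Surjective ((Ideal.Quotient.mk P).comp (algebraMap (𝓞 k) (𝓞 k'))) := by
  obtain ⟨Q, hQ, hQv, hfr⟩ := hv
  obtain ⟨I, hI⟩ : ∃ I : 𝓞 k' →+* 𝓞 (AlgebraicClosure k),
      I = RingOfIntegers.mapRingHom (i : k' →+* AlgebraicClosure k) := ⟨_, rfl⟩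
  have hIv : ∀ x : 𝓞 k', ((I x : 𝓞 (AlgebraicClosure k)) : AlgebraicClosure k) = i (x : k') := by
    intro x
    rw [hI]
    rfl
  have hcomp : I.comp (algebraMap (𝓞 k) (𝓞 k')) = algebraMap (𝓞 k) (𝓞 (AlgebraicClosure k)) := by
    refine RingHom.ext fun x => RingOfIntegers.ext ?_
    rw [RingHom.comp_apply, hIv]
    exact i.commutes (x : k)
  obtain ⟨P, hP⟩ : ∃ P : Ideal (𝓞 k'), P = Q.comap I := ⟨_, rfl⟩
  haveI : Q.IsPrime := hQ.isPrime
  haveI hPp : P.IsPrime := by rw [hP]; exact Ideal.comap_isPrime I Q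
  have hPv : P.comap (algebraMap (𝓞 k) (𝓞 k')) = v.asIdeal := by
    rw [hP, Ideal.comap_comap, hcomp, hQv]
  have hP0 : P ≠ ⊥ := by
    intro h
    apply v.ne_bot
    rw [← hPv, h, eq_bot_iff]
    intro x hx
    rw [Ideal.mem_comap, Ideal.mem_bot] at hx
    rw [Ideal.mem_bot]
    have h2 : (((algebraMap (𝓞 k) (𝓞 k')) x : 𝓞 k') : k') = 0 := by rw [hx]; rfl
    have h3 : algebraMap k k' (x : k) = 0 := h2
    rw [map_eq_zero] at h3
    exact RingOfIntegers.ext h3
  have hPm : P.IsMaximal := hPp.isMaximal hP0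
  refine ⟨P, hPm, hPv, ?_⟩
  haveI := hPm
  haveI : v.asIdeal.IsMaximal := v.isMaximal
  letI : Field (𝓞 k' ⧸ P) := Ideal.Quotient.field P
  letI : Field (𝓞 k ⧸ v.asIdeal) := Ideal.Quotient.field v.asIdeal
  haveI : Finite (𝓞 k ⧸ v.asIdeal) := Ideal.finiteQuotientOfFreeOfNeBot _ v.ne_bot
  obtain ⟨f, hf⟩ : ∃ f : (𝓞 k ⧸ v.asIdeal) →+* (𝓞 k' ⧸ P),
      f = Ideal.quotientMap P (algebraMap (𝓞 k) (𝓞 k')) (le_of_eq hPv.symm) := ⟨_, rfl⟩
  have hcard : Ideal.absNorm v.asIdeal = Nat.card (𝓞 k ⧸ v.asIdeal) := Ideal.absNorm_apply _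
  have hs := surj_of_pow f (by
    intro x
    obtain ⟨y, rfl⟩ := Ideal.Quotient.mk_surjective x
    rw [← map_pow, ← hcard, Ideal.Quotient.eq, hP, Ideal.mem_comap, map_sub, map_pow]
    have h1 := hfr (I y)
    have h2 : σ • I y = I y := by
      refine RingOfIntegers.ext ?_
      have h3 : ((σ • I y : 𝓞 (AlgebraicClosure k)) : AlgebraicClosure k) =
        σ ((I y : 𝓞 (AlgebraicClosure k)) : AlgebraicClosure k) := rfl
      rw [h3, hIv, hσ]
    rw [h2] at h1
    rw [← neg_sub]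
    exact Q.neg_mem h1)
  intro x
  obtain ⟨y, hy⟩ := hs x
  obtain ⟨z, rfl⟩ := Ideal.Quotient.mk_surjective y
  exact ⟨z, by rw [← hy, hf]; rfl⟩

/-- **There are infinitely many such ideals.** -/
theorem Zs_inf (B : ℕ) {D : 𝓞 k} (hD : D ≠ 0) : (Zs k k' B D).Infinite := by
  intro hfin
  haveI : Module.Finite k k' := Module.Finite.of_restrictScalars_finite ℚ k k'
  obtain ⟨i⟩ : Nonempty (k' →ₐ[k] AlgebraicClosure k) := ⟨IsAlgClosed.lift⟩
  obtain ⟨n, b, -⟩ : ∃ (n : ℕ) (b : Module.Basis (Fin n) k k'), b = b :=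
    ⟨_, Module.finBasis k k', rfl⟩
  obtain ⟨F, hF⟩ : ∃ F : k[X], F = ∏ j, minpoly k (b j) := ⟨_, rfl⟩
  have hF0 : F ≠ 0 := by
    rw [hF]
    exact Finset.prod_ne_zero_iff.2 fun j _ => minpoly.ne_zero (Algebra.IsIntegral.isIntegral (b j))
  have hfix : ∀ σ ∈ (MulAction.toPermHom (GK k) (F.rootSet (AlgebraicClosure k))).ker,
      ∀ x : k', σ (i x) = i x := by
    intro σ hσ
    have hb : ∀ j, σ (i (b j)) = i (b j) := by
      intro j
      have hmem : i (b j) ∈ F.rootSet (AlgebraicClosure k) := by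
        rw [mem_rootSet]
        refine ⟨hF0, ?_⟩
        rw [hF, map_prod]
        apply Finset.prod_eq_zero (Finset.mem_univ j)
        rw [aeval_algHom_apply, minpoly.aeval, map_zero]
      exact congrArg (fun π : Equiv.Perm (F.rootSet (AlgebraicClosure k)) =>
        ((π ⟨i (b j), hmem⟩ : F.rootSet (AlgebraicClosure k)) : AlgebraicClosure k))
        (MonoidHom.mem_ker.1 hσ)
    have hlin : ((σ : AlgebraicClosure k →ₗ[k] AlgebraicClosure k).comp i.toLinearMap) =
        i.toLinearMap := b.ext fun j => hb j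
    intro x
    exact LinearMap.congr_fun hlin x
  have hS1 : {v : HeightOneSpectrum (𝓞 k) | v.asIdeal ∈ Zs k k' B D}.Finite := by
    refine Set.Finite.of_finite_image (f := fun p : HeightOneSpectrum (𝓞 k) => p.asIdeal)
      (hfin.subset ?_) ?_
    · rintro _ ⟨p, hp, rfl⟩
      exact hp
    · intro p _ q _ h
      exact HeightOneSpectrum.ext h
  have hS2 : {v : HeightOneSpectrum (𝓞 k) | D ∈ v.asIdeal}.Finite := fin_bad hD
  have hS3 := fin_le (k := k) B
  obtain ⟨δ, hδ, hev⟩ := pos_dens (k := k)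
    (C := (((MulAction.toPermHom (GK k) (F.rootSet (AlgebraicClosure k))).ker : Subgroup (GK k)) :
      Set (GK k)))
    (MulAction.toPermHom (GK k) (F.rootSet (AlgebraicClosure k))).ker (open_ker F)
    (fun σ hσ τ => (MonoidHom.normal_ker _).conj_mem σ hσ τ)
    (fun σ hσ u hu => Subgroup.mul_mem _ hσ hu) ⟨1, Subgroup.one_mem _⟩
    (P := fun _ => False) ((hS1.union hS2).union hS3) (by
      rintro v hv ⟨σ, hσ, hfr⟩
      apply hv
      by_cases h3 : Ideal.absNorm v.asIdeal ≤ B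
      · exact Or.inr h3
      by_cases h2 : D ∈ v.asIdeal
      · exact Or.inl (Or.inr h2)
      · refine Or.inl (Or.inl ⟨v.isMaximal, Ideal.finiteQuotientOfFreeOfNeBot _ v.ne_bot, ?_, h2,
          above_of_frob i (hfix σ hσ) hfr⟩)
        have hc : Ideal.absNorm v.asIdeal = Nat.card (𝓞 k ⧸ v.asIdeal) := Ideal.absNorm_apply _
        omega)
  obtain ⟨N, hN⟩ := hev.exists
  have h0 : dens (fun _ : HeightOneSpectrum (𝓞 k) => False) N = 0 := by
    unfold dens
    have : Nat.card {v : HeightOneSpectrum (𝓞 k) // Ideal.absNorm v.asIdeal ≤ N ∧ False} = 0 := by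
      haveI : IsEmpty {v : HeightOneSpectrum (𝓞 k) // Ideal.absNorm v.asIdeal ≤ N ∧ False} :=
        ⟨fun x => x.2.2⟩
      exact Nat.card_of_isEmpty
    rw [this, Nat.cast_zero, zero_div]
  rw [h0] at hN
  linarith

end

end Pool.Agent.J4H46.TR
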